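import Mathlib

set_option autoImplicit false

/-!
# Representations induced from a character with a large stabiliser
-/

namespace Pool.Agent.K7.H91.OnnInd

variable {G : Type} [Group G]

/-- The space of the representation induced from the character `χ` of the subgroup `I`. -/
def indV (I : Subgroup G) (χ : I →* ℂ) : Submodule ℂ (G → ℂ) where
  carrier := {f | ∀ (x : G) (h : I), f (x * h) = χ h⁻¹ * f x}
  add_mem' := by
    intro f g hf hg x h
    simp only [Pi.add_apply, hf x h, hg x h]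
    ring
  zero_mem' := by
    intro x h
    simp
  smul_mem' := by
    intro c f hf x h
    simp only [Pi.smul_apply, hf x h, smul_eq_mul]
    ring

variable (I : Subgroup G) (χ : I →* ℂ)

lemma indV_apply (f : indV I χ) (x : G) (h : I) : f.1 (x * h) = χ h⁻¹ * f.1 x := f.2 x h

/-- The induced representation. -/
def indRep : Representation ℂ G (indV I χ) where
  toFun g :=
    { toFun := fun f => ⟨fun x => f.1 (g⁻¹ * x), by
        intro x h
        change f.1 (g⁻¹ * (x * h)) = _
        rw [← mul_assoc]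
        exact f.2 _ h⟩
      map_add' := fun _ _ => rfl
      map_smul' := fun _ _ => rfl }
  map_one' := by
    ext f x
    simp
  map_mul' := by
    intro g h
    ext f x
    simp [mul_assoc]

lemma indRep_apply (g : G) (f : indV I χ) (x : G) : (indRep I χ g f).1 x = f.1 (g⁻¹ * x) := rfl

lemma out_inv_mul (x : G) : ((QuotientGroup.mk x : G ⧸ I).out)⁻¹ * x ∈ I := by
  rw [← QuotientGroup.eq]
  exact Quotient.out_eq' _

/-- Evaluation at coset representatives. -/
noncomputable def evalEquiv : indV I χ ≃ₗ[ℂ] (G ⧸ I → ℂ) where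
  toFun f := fun c => f.1 c.out
  map_add' _ _ := rfl
  map_smul' _ _ := rfl
  invFun F := ⟨fun x => χ (⟨_, out_inv_mul I x⟩⁻¹ : I) * F (QuotientGroup.mk x), by
    intro x h
    have hq : (QuotientGroup.mk (x * (h : G)) : G ⧸ I) = QuotientGroup.mk x := by
      rw [QuotientGroup.eq]
      simp
    have e1 : (⟨_, out_inv_mul I (x * h)⟩⁻¹ : I) = h⁻¹ * ⟨_, out_inv_mul I x⟩⁻¹ := by
      apply Subtype.ext
      simp [hq, mul_assoc]
    have e2 : F (QuotientGroup.mk (x * (h : G))) = F (QuotientGroup.mk x) := by rw [hq]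
    change χ _ * F _ = χ _ * (χ _ * F _)
    rw [e1, e2, map_mul, mul_assoc]⟩
  left_inv := by
    intro f
    apply Subtype.ext
    funext x
    change χ _ * f.1 _ = f.1 x
    rw [← f.2 (QuotientGroup.mk x : G ⧸ I).out ⟨_, out_inv_mul I x⟩]
    simp
  right_inv := by
    intro F
    funext c
    change χ _ * F _ = F c
    have hc : (QuotientGroup.mk c.out : G ⧸ I) = c := Quotient.out_eq' c
    have h1 : (⟨_, out_inv_mul I c.out⟩⁻¹ : I) = 1 := by
      apply Subtype.ext
      simp [hc]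
    rw [h1, map_one, one_mul, hc]

lemma finrank_indV [Finite G] : Module.finrank ℂ (indV I χ) = I.index := by
  classical
  have := Fintype.ofFinite G
  have := Fintype.ofFinite (G ⧸ I)
  rw [(evalEquiv I χ).finrank_eq, Module.finrank_fintype_fun_eq_card, Subgroup.index,
    Nat.card_eq_fintype_card]

instance [Finite G] : FiniteDimensional ℂ (indV I χ) := by
  have := Fintype.ofFinite (G ⧸ I)
  exact (evalEquiv I χ).symm.finiteDimensional

lemma chi_inv (h : I) : χ h⁻¹ * χ h = 1 := by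
  rw [← map_mul, inv_mul_cancel, map_one]

lemma chi_ne_zero (h : I) : χ h ≠ 0 := by
  intro h0
  have := chi_inv I χ h
  rw [h0, mul_zero] at this
  exact zero_ne_one this

/-- The conjugated character on the normal subgroup `K`. -/
noncomputable def conjHom (K : Subgroup G) [K.Normal] (hKI : K ≤ I) (x : G) : K →* ℂ where
  toFun k := χ ⟨x⁻¹ * k * x, hKI (by simpa using ‹K.Normal›.conj_mem k k.2 x⁻¹)⟩
  map_one' := by
    rw [← map_one χ]
    congr 1
    apply Subtype.ext
    simp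
  map_mul' := by
    intro a b
    rw [← map_mul]
    congr 1
    apply Subtype.ext
    simp [mul_assoc]

lemma rep_normal (K : Subgroup G) [K.Normal] (hKI : K ≤ I) (k : K) (f : indV I χ) (x : G) :
    (indRep I χ k f).1 x = conjHom I χ K hKI x k * f.1 x := by
  rw [indRep_apply]
  have hk : x⁻¹ * (k : G)⁻¹ * x ∈ I := hKI (by simpa using ‹K.Normal›.conj_mem _ (inv_mem k.2) x⁻¹)
  have h1 : (k : G)⁻¹ * x = x * ((⟨x⁻¹ * (k : G)⁻¹ * x, hk⟩ : I) : G) := by
    simp [mul_assoc]
  rw [h1, f.2 x]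
  congr 1
  change χ _ = χ _
  congr 1
  apply Subtype.ext
  simp [mul_assoc]

/-- Irreducibility of the induced representation. -/
theorem irreducible [Finite G] (K : Subgroup G) [K.Normal] (hKI : K ≤ I)
    (hst : ∀ y : G, (∀ k : K, χ ⟨y⁻¹ * k * y, hKI (by
      simpa using ‹K.Normal›.conj_mem k k.2 y⁻¹)⟩ = χ ⟨k, hKI k.2⟩) → y ∈ I)
    (W : Submodule ℂ (indV I χ)) (hW : ∀ g v, v ∈ W → indRep I χ g v ∈ W) : W = ⊥ ∨ W = ⊤ := by
  classical
  by_cases hbot : W = ⊥
  · exact Or.inl hbot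
  right
  obtain ⟨f, hfW, hf0⟩ := (Submodule.ne_bot_iff W).1 hbot
  have : ∃ x₀, f.1 x₀ ≠ 0 := by
    by_contra hcon
    push Not at hcon
    apply hf0
    apply Subtype.ext
    funext x
    exact hcon x
  obtain ⟨x₀, hx₀⟩ := this
  have := Fintype.ofFinite G
  have := Fintype.ofFinite K
  have := Fintype.ofFinite (G ⧸ I)
  -- the projection to the eigenspace
  let g : indV I χ := ∑ k : K, (conjHom I χ K hKI x₀ k⁻¹) • indRep I χ k f
  have hgW : g ∈ W := Submodule.sum_mem _ fun k _ => Submodule.smul_mem _ _ (hW _ _ hfW)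
  have hgx : ∀ x, g.1 x = (∑ k : K, conjHom I χ K hKI x₀ k⁻¹ * conjHom I χ K hKI x k) * f.1 x := by
    intro x
    rw [Finset.sum_mul]
    have : g.1 x = ∑ k : K, (conjHom I χ K hKI x₀ k⁻¹) * (indRep I χ k f).1 x := by
      simp only [g, AddSubmonoidClass.coe_finsetSum, Finset.sum_apply, Submodule.coe_smul,
        Pi.smul_apply, smul_eq_mul]
    rw [this]
    refine Finset.sum_congr rfl fun k _ => ?_
    rw [rep_normal I χ K hKI, mul_assoc]
  have hg0 : g.1 x₀ = (Fintype.card K : ℂ) * f.1 x₀ := by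
    rw [hgx]
    congr 1
    rw [Finset.sum_congr rfl (g := fun _ => (1 : ℂ)) (fun k _ => by
      rw [← map_mul, inv_mul_cancel, map_one])]
    simp
  have hg0' : g.1 x₀ ≠ 0 := by
    rw [hg0]
    refine mul_ne_zero ?_ hx₀
    exact_mod_cast Fintype.card_ne_zero
  have hgs : ∀ x, x₀⁻¹ * x ∉ I → g.1 x = 0 := by
    intro x hx
    rw [hgx]
    let φ : K →* ℂ :=
      { toFun := fun k => conjHom I χ K hKI x₀ k⁻¹ * conjHom I χ K hKI x k
        map_one' := by simp
        map_mul' := by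
          intro a b
          rw [mul_inv_rev, map_mul, map_mul]
          ring }
    have hφ : φ ≠ 1 := by
      intro h1
      apply hx
      apply hst
      intro k
      have hk' : x₀ * k * x₀⁻¹ ∈ K := ‹K.Normal›.conj_mem k k.2 x₀
      have h2 : φ ⟨_, hk'⟩ = 1 := by rw [h1]; rfl
      change conjHom I χ K hKI x₀ (⟨_, hk'⟩⁻¹) * conjHom I χ K hKI x ⟨_, hk'⟩ = 1 at h2
      have h3 : conjHom I χ K hKI x₀ (⟨_, hk'⟩⁻¹) * conjHom I χ K hKI x₀ ⟨_, hk'⟩ = 1 := by
        rw [← map_mul, inv_mul_cancel, map_one]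
      have h4 : conjHom I χ K hKI x₀ (⟨_, hk'⟩⁻¹) ≠ 0 := by
        intro h0
        rw [h0, zero_mul] at h3
        exact zero_ne_one h3
      have h5 := mul_left_cancel₀ h4 (h2.trans h3.symm)
      change χ _ = χ _ at h5
      have e1 : (⟨x⁻¹ * (x₀ * ↑k * x₀⁻¹) * x, hKI (by
          simpa using ‹K.Normal›.conj_mem _ hk' x⁻¹)⟩ : I) =
        ⟨(x₀⁻¹ * x)⁻¹ * k * (x₀⁻¹ * x), hKI (by
          simpa using ‹K.Normal›.conj_mem k k.2 (x₀⁻¹ * x)⁻¹)⟩ := by
        apply Subtype.ext
        simp [mul_assoc]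
      have e2 : (⟨x₀⁻¹ * (x₀ * ↑k * x₀⁻¹) * x₀, hKI (by
          simpa using ‹K.Normal›.conj_mem _ hk' x₀⁻¹)⟩ : I) = ⟨k, hKI k.2⟩ := by
        apply Subtype.ext
        simp [mul_assoc]
      rw [← e1, ← e2]
      exact h5
    have := sum_hom_units_eq_zero φ hφ
    change (∑ k : K, φ k) * _ = 0
    rw [this, zero_mul]
  -- every vector is a combination of translates of `g`
  rw [eq_top_iff]
  intro F _
  have key : F = ∑ c : G ⧸ I, (F.1 c.out / g.1 x₀) • indRep I χ (c.out * x₀⁻¹) g := by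
    apply (evalEquiv I χ).injective
    funext c'
    rw [map_sum, Finset.sum_apply]
    change F.1 c'.out = ∑ c : G ⧸ I, (F.1 c.out / g.1 x₀) * g.1 ((c.out * x₀⁻¹)⁻¹ * c'.out)
    rw [Finset.sum_eq_single c']
    · have : (c'.out * x₀⁻¹)⁻¹ * c'.out = x₀ := by group
      rw [this, div_mul_cancel₀ _ hg0']
    · intro c _ hc
      rw [hgs ((c.out * x₀⁻¹)⁻¹ * c'.out) ?_, mul_zero]
      intro hmem
      apply hc
      have h1 : c.out⁻¹ * c'.out ∈ I := by
        have : x₀⁻¹ * ((c.out * x₀⁻¹)⁻¹ * c'.out) = c.out⁻¹ * c'.out := by group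
        rwa [this] at hmem
      rw [← QuotientGroup.eq] at h1
      have e1 : (QuotientGroup.mk c.out : G ⧸ I) = c := Quotient.out_eq' c
      have e2 : (QuotientGroup.mk c'.out : G ⧸ I) = c' := Quotient.out_eq' c'
      rw [e1, e2] at h1
      exact h1
    · intro h
      exact absurd (Finset.mem_univ _) h
  rw [key]
  exact Submodule.sum_mem _ fun c _ => Submodule.smul_mem _ _ (hW _ _ hgW)

lemma rep_ne_one (k : I) (hk : χ k ≠ 1) : indRep I χ k ≠ 1 := by
  classical
  intro h
  let F : G ⧸ I → ℂ := fun _ => 1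
  let f := (evalEquiv I χ).symm F
  have h1 : ∀ x, f.1 x = χ (⟨_, out_inv_mul I x⟩⁻¹ : I) * 1 := fun x => rfl
  have h2 : f.1 1 ≠ 0 := by
    rw [h1, mul_one]
    exact chi_ne_zero I χ _
  have h3 : (indRep I χ k f).1 1 = f.1 1 := by rw [h]; rfl
  rw [indRep_apply, mul_one] at h3
  have h4 := f.2 1 k⁻¹
  rw [one_mul, inv_inv] at h4
  have h5 : (((k⁻¹ : I) : G)) = (k : G)⁻¹ := rfl
  rw [h5, h3] at h4
  apply hk
  have := mul_right_cancel₀ h2 ((one_mul _).trans h4)
  exact this.symm

end Pool.Agent.K7.H91.OnnInd
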