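import Mathlib

set_option autoImplicit false

/-!
# An upper bound for the dimension of irreducible representations
-/

namespace Pool.Agent.K7.H91.OnnUp

open Module

/-- A commuting family of operators has a common eigenvector in every nonzero invariant subspace. -/
lemma common_eigen {V : Type} [AddCommGroup V] [Module ℂ V] [FiniteDimensional ℂ V]
    (S : Set (Module.End ℂ V)) (hS : ∀ a ∈ S, ∀ b ∈ S, a * b = b * a) (n : ℕ) :
    ∀ E : Submodule ℂ V, finrank ℂ E ≤ n → E ≠ ⊥ → (∀ a ∈ S, ∀ v ∈ E, a v ∈ E) →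
      ∃ v ∈ E, v ≠ 0 ∧ ∀ a ∈ S, ∃ c : ℂ, a v = c • v := by
  induction n with
  | zero =>
    intro E hE hE0
    exact absurd (Submodule.finrank_eq_zero.1 (Nat.le_zero.1 hE)) hE0
  | succ n ih =>
    intro E hE hE0 hinv
    by_cases hall : ∀ a ∈ S, ∃ c : ℂ, ∀ v ∈ E, a v = c • v
    · obtain ⟨v, hv, hv0⟩ := (Submodule.ne_bot_iff E).1 hE0
      exact ⟨v, hv, hv0, fun a ha => (hall a ha).imp fun c hc => hc v hv⟩
    · push Not at hall
      obtain ⟨a, ha, hna⟩ := hall
      have : Nontrivial E := Submodule.nontrivial_iff_ne_bot.2 hE0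
      obtain ⟨μ, hμ⟩ := Module.End.exists_eigenvalue (a.restrict (hinv a ha))
      obtain ⟨w, hw⟩ := hμ.exists_hasEigenvector
      let E' : Submodule ℂ V := E ⊓ Module.End.eigenspace a μ
      have hE'E : E' ≤ E := inf_le_left
      have hE' : E' < E := by
        refine lt_of_le_of_ne hE'E ?_
        intro h
        obtain ⟨v, hv, hv'⟩ := hna μ
        apply hv'
        rw [← h] at hv
        exact Module.End.mem_eigenspace_iff.1 hv.2
      have hlt : finrank ℂ E' < finrank ℂ E := Submodule.finrank_lt_finrank_of_lt hE'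
      have hw1 : a w.1 = μ • w.1 := by
        have := congrArg Subtype.val (Module.End.mem_eigenspace_iff.1 hw.1)
        simpa using this
      have hne : E' ≠ ⊥ := by
        rw [Submodule.ne_bot_iff]
        refine ⟨w.1, ⟨w.2, Module.End.mem_eigenspace_iff.2 hw1⟩, ?_⟩
        intro h0
        exact hw.2 (Subtype.ext h0)
      obtain ⟨v, hv, hv0, hv1⟩ := ih E' (by omega) hne (by
        intro b hb v hv
        refine ⟨hinv b hb v hv.1, Module.End.mem_eigenspace_iff.2 ?_⟩
        have h1 : a (b v) = (a * b) v := rfl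
        rw [h1, hS a ha b hb]
        change b (a v) = _
        rw [Module.End.mem_eigenspace_iff.1 hv.2, map_smul])
      exact ⟨v, hv.1, hv0, hv1⟩

theorem finrank_lt {G : Type} [Group G] [Finite G] (K : Subgroup G) [K.Normal]
    (hcomm : ∀ a b : K, a * b = b * a)
    (hst : ∀ ψ : K →* ℂˣ, ∃ g : G, g ∉ K ∧ ∀ k : K,
      ψ ⟨g⁻¹ * k * g, by simpa using ‹K.Normal›.conj_mem k k.2 g⁻¹⟩ = ψ k)
    {V : Type} [AddCommGroup V] [Module ℂ V] [FiniteDimensional ℂ V] [Nontrivial V]
    (ρ : Representation ℂ G V)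
    (hirr : ∀ W : Submodule ℂ V, (∀ g v, v ∈ W → ρ g v ∈ W) → W = ⊥ ∨ W = ⊤) :
    finrank ℂ V < K.index := by
  classical
  -- common eigenvector of `K`
  obtain ⟨v, -, hv0, hv⟩ := common_eigen (Set.range fun k : K => ρ k) (by
    rintro _ ⟨a, rfl⟩ _ ⟨b, rfl⟩
    change ρ a * ρ b = ρ b * ρ a
    rw [← map_mul, ← map_mul]
    congr 1
    exact congrArg Subtype.val (hcomm a b)) (finrank ℂ (⊤ : Submodule ℂ V)) ⊤ le_rfl
    (by simp) (by simp)
  have hv' : ∀ k : K, ∃ c : ℂ, ρ k v = c • v := fun k => hv _ ⟨k, rfl⟩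
  choose c hc using hv'
  have hc0 : ∀ k, c k ≠ 0 := by
    intro k h0
    have h1 := hc k
    rw [h0, zero_smul] at h1
    have h2 : ρ (k : G)⁻¹ (ρ k v) = v := by
      rw [← Module.End.mul_apply, ← map_mul, inv_mul_cancel, map_one]; rfl
    rw [h1, map_zero] at h2
    exact hv0 h2.symm
  let ψ : K →* ℂˣ := MonoidHom.toHomUnits
    { toFun := c
      map_one' := by
        have h1 := hc 1
        rw [Subgroup.coe_one, map_one, Module.End.one_apply] at h1
        have h2 : (1 : ℂ) • v = c 1 • v := by rw [one_smul]; exact h1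
        exact (smul_left_injective ℂ hv0 h2).symm
      map_mul' := by
        intro a b
        have h1 := hc (a * b)
        rw [Subgroup.coe_mul, map_mul, Module.End.mul_apply, hc b, map_smul, hc a, smul_smul] at h1
        have h2 := smul_left_injective ℂ hv0 h1
        rw [← h2, mul_comm] }
  have hψ : ∀ k, ((ψ k : ℂˣ) : ℂ) = c k := fun k => rfl
  obtain ⟨g, hgK, hg⟩ := hst ψ
  let E : Submodule ℂ V :=
    { carrier := {w | ∀ k : K, ρ k w = c k • w}
      add_mem' := by
        intro a b ha hb k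
        rw [map_add, ha k, hb k, smul_add]
      zero_mem' := by
        intro k
        rw [map_zero, smul_zero]
      smul_mem' := by
        intro t a ha k
        rw [map_smul, ha k, smul_comm] }
  have hvE : v ∈ E := hc
  obtain ⟨w, hwE, hw0, hw⟩ := common_eigen {ρ g} (by
    rintro a ha b hb
    rw [Set.mem_singleton_iff.1 ha, Set.mem_singleton_iff.1 hb]) (finrank ℂ E) E le_rfl
    ((Submodule.ne_bot_iff E).2 ⟨v, hvE, hv0⟩) (by
      rintro a ha u hu k
      rw [Set.mem_singleton_iff.1 ha]
      have hk' : g⁻¹ * k * g ∈ K := by simpa using ‹K.Normal›.conj_mem k k.2 g⁻¹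
      have h1 : (k : G) * g = g * (g⁻¹ * k * g) := by group
      rw [← Module.End.mul_apply, ← map_mul, h1, map_mul, Module.End.mul_apply]
      have h2 := hu ⟨_, hk'⟩
      rw [h2, map_smul]
      congr 1
      rw [← hψ, ← hψ, hg k])
  obtain ⟨μ, hμ⟩ := hw _ rfl
  -- the stabiliser of the line
  let L : Subgroup G :=
    { carrier := {x | ∃ t : ℂ, ρ x w = t • w}
      mul_mem' := by
        rintro a b ⟨s, hs⟩ ⟨t, ht⟩
        refine ⟨t * s, ?_⟩
        rw [map_mul, Module.End.mul_apply, ht, map_smul, hs, smul_smul]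
      one_mem' := ⟨1, by rw [map_one, one_smul]; rfl⟩
      inv_mem' := by
        rintro a ⟨s, hs⟩
        refine ⟨s⁻¹, ?_⟩
        have h2 : ρ a⁻¹ (ρ a w) = w := by
          rw [← Module.End.mul_apply, ← map_mul, inv_mul_cancel, map_one]; rfl
        have hs0 : s ≠ 0 := by
          intro h0
          rw [hs, h0, zero_smul, map_zero] at h2
          exact hw0 h2.symm
        rw [hs, map_smul] at h2
        rw [← h2, smul_smul, inv_mul_cancel₀ hs0, one_smul, h2] }
  have hKL : K < L := by
    refine lt_of_le_of_ne (fun k hk => ⟨c ⟨k, hk⟩, hwE ⟨k, hk⟩⟩) ?_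
    intro h
    apply hgK
    rw [h]
    exact ⟨μ, hμ⟩
  have hidx : L.index < K.index := by
    have h1 := Subgroup.relIndex_mul_index hKL.le
    have h2 : K.relIndex L ≠ 1 := by
      intro h
      exact not_le_of_gt hKL (Subgroup.relIndex_eq_one.1 h)
    have h3 : L.index ≠ 0 := Subgroup.index_ne_zero_of_finite
    have h4 : K.index ≠ 0 := Subgroup.index_ne_zero_of_finite
    have h5 : K.relIndex L ≠ 0 := by
      intro h
      rw [h, zero_mul] at h1
      exact h4 h1.symm
    have h6 : 2 ≤ K.relIndex L := by omega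
    calc L.index < 2 * L.index := by omega
      _ ≤ K.relIndex L * L.index := Nat.mul_le_mul_right _ h6
      _ = K.index := h1
  refine lt_of_le_of_lt ?_ hidx
  -- the translates of `w` span `V`
  have := Fintype.ofFinite (G ⧸ L)
  have hspan : Submodule.span ℂ (Set.range fun q : G ⧸ L => ρ q.out w) = ⊤ := by
    have hall : ∀ x : G, ρ x w ∈ Submodule.span ℂ (Set.range fun q : G ⧸ L => ρ q.out w) := by
      intro x
      have h1 : ((QuotientGroup.mk x : G ⧸ L).out)⁻¹ * x ∈ L := by
        rw [← QuotientGroup.eq]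
        exact Quotient.out_eq' _
      obtain ⟨t, ht⟩ := h1
      have h2 : x = (QuotientGroup.mk x : G ⧸ L).out * (((QuotientGroup.mk x : G ⧸ L).out)⁻¹ * x) := by
        group
      have h3 : ρ x w = t • ρ (QuotientGroup.mk x : G ⧸ L).out w := by
        conv_lhs => rw [h2]
        rw [map_mul, Module.End.mul_apply, ht, map_smul]
      rw [h3]
      exact Submodule.smul_mem _ _ (Submodule.subset_span ⟨_, rfl⟩)
    rcases hirr (Submodule.span ℂ (Set.range fun x : G => ρ x w)) (by
      intro g u hu
      induction hu using Submodule.span_induction with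
      | mem u hu =>
        obtain ⟨x, rfl⟩ := hu
        change ρ g (ρ x w) ∈ _
        rw [← Module.End.mul_apply, ← map_mul]
        exact Submodule.subset_span ⟨_, rfl⟩
      | zero => rw [map_zero]; exact Submodule.zero_mem _
      | add a b _ _ ha hb => rw [map_add]; exact Submodule.add_mem _ ha hb
      | smul t a _ ha => rw [map_smul]; exact Submodule.smul_mem _ _ ha) with h | h
    · exfalso
      have h1 : ρ 1 w ∈ Submodule.span ℂ (Set.range fun x : G => ρ x w) :=
        Submodule.subset_span ⟨1, rfl⟩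
      rw [h, Submodule.mem_bot, map_one] at h1
      exact hw0 h1
    · rw [eq_top_iff, ← h, Submodule.span_le]
      rintro _ ⟨x, rfl⟩
      exact hall x
  have h1 := finrank_range_le_card (R := ℂ) (fun q : G ⧸ L => ρ q.out w)
  rw [Set.finrank, hspan, finrank_top] at h1
  rwa [Subgroup.index, Nat.card_eq_fintype_card]

end Pool.Agent.K7.H91.OnnUp
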