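import Pool.Agent.K7.H91.OnnInd
import Pool.Agent.K7.H91.OnnUp

set_option autoImplicit false

/-!
# The group `GL_3` over a ring of length two
-/

namespace Pool.Agent.K7.H91.OnnRing

open Matrix

/-- A ring of length two with residue field of prime order. -/
structure Len2 (p : ℕ) [Fact p.Prime] (A : Type) [CommRing A] where
  red : A →+* ZMod p
  surj : Function.Surjective red
  sq : ∀ a b, red a = 0 → red b = 0 → a * b = 0
  w : A
  red_w : red w = 0
  gen : ∀ a, red a = 0 → ∃ u, a = w * u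
  w_ne : w ≠ 0

variable {p : ℕ} [Fact p.Prime] {A : Type} [CommRing A] (L : Len2 p A)

lemma isUnit_of_red {a : A} (h : L.red a ≠ 0) : IsUnit a := by
  obtain ⟨b, hb⟩ := L.surj (L.red a)⁻¹
  have h1 : L.red (1 - a * b) = 0 := by
    rw [map_sub, map_one, map_mul, hb, mul_inv_cancel₀ h, sub_self]
  have h2 := L.sq _ _ h1 h1
  refine IsUnit.of_mul_eq_one (b * (1 + (1 - a * b))) ?_
  linear_combination -h2

/-- Reduction on `GL_3`. -/
def rd : GL (Fin 3) A →* GL (Fin 3) (ZMod p) := GeneralLinearGroup.map L.red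

lemma rd_apply (g : GL (Fin 3) A) (i j : Fin 3) : (rd L g).val i j = L.red (g.val i j) := rfl

lemma rd_surj : Function.Surjective (rd L) := by
  intro g
  choose f hf using L.surj
  let M : Matrix (Fin 3) (Fin 3) A := fun i j => f (g.val i j)
  have hM : L.red.mapMatrix M = g.val := by
    ext i j
    exact hf _
  have hdet : L.red M.det ≠ 0 := by
    rw [RingHom.map_det, hM]
    have := (Matrix.isUnit_iff_isUnit_det g.val).1 g.isUnit
    exact this.ne_zero
  refine ⟨GeneralLinearGroup.mk'' M (isUnit_of_red L hdet), ?_⟩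
  apply GeneralLinearGroup.ext
  intro i j
  exact hf _

/-- The kernel of reduction. -/
def K : Subgroup (GL (Fin 3) A) := (rd L).ker

instance : (K L).Normal := by unfold K; infer_instance

lemma mem_K (g : GL (Fin 3) A) : g ∈ K L ↔ ∀ i j, L.red (g.val i j - (1 : Matrix _ _ A) i j) = 0 := by
  rw [K, MonoidHom.mem_ker]
  constructor
  · intro h i j
    have h1 : (rd L g).val i j = (1 : GL (Fin 3) (ZMod p)).val i j := by rw [h]
    rw [rd_apply] at h1
    rw [map_sub, h1, sub_eq_zero]
    change (1 : Matrix _ _ (ZMod p)) i j = _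
    rw [Matrix.one_apply, Matrix.one_apply]
    split_ifs <;> simp
  · intro h
    apply GeneralLinearGroup.ext
    intro i j
    rw [rd_apply]
    have h1 := h i j
    rw [map_sub, sub_eq_zero] at h1
    rw [h1]
    change _ = (1 : Matrix _ _ (ZMod p)) i j
    rw [Matrix.one_apply, Matrix.one_apply]
    split_ifs <;> simp

lemma K_index [Finite A] : (K L).index = (p ^ 3 - 1) * (p ^ 3 - p) * (p ^ 3 - p ^ 2) := by
  rw [K, Subgroup.index_ker, MonoidHom.range_eq_top.2 (rd_surj L), Subgroup.card_top,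
    Matrix.card_GL_field, Fin.prod_univ_three]
  simp [ZMod.card]

/-- The element `1 + w u`. -/
def el (u : Matrix (Fin 3) (Fin 3) A) : GL (Fin 3) A where
  val := 1 + L.w • u
  inv := 1 - L.w • u
  val_inv := by
    have h : (L.w • u) * (L.w • u) = 0 := by
      rw [Matrix.smul_mul, Matrix.mul_smul, smul_smul, L.sq _ _ L.red_w L.red_w, zero_smul]
    have : (1 + L.w • u) * (1 - L.w • u) = 1 - (L.w • u) * (L.w • u) := by
      generalize L.w • u = X
      noncomm_ring
    rw [this, h, sub_zero]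
  inv_val := by
    have h : (L.w • u) * (L.w • u) = 0 := by
      rw [Matrix.smul_mul, Matrix.mul_smul, smul_smul, L.sq _ _ L.red_w L.red_w, zero_smul]
    have : (1 - L.w • u) * (1 + L.w • u) = 1 - (L.w • u) * (L.w • u) := by
      generalize L.w • u = X
      noncomm_ring
    rw [this, h, sub_zero]

lemma el_val (u : Matrix (Fin 3) (Fin 3) A) : (el L u).val = 1 + L.w • u := rfl

lemma el_mem (u : Matrix (Fin 3) (Fin 3) A) : el L u ∈ K L := by
  rw [mem_K]
  intro i j
  rw [el_val, Matrix.add_apply, add_sub_cancel_left, Matrix.smul_apply, smul_eq_mul, map_mul,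
    L.red_w, zero_mul]

lemma el_add (u v : Matrix (Fin 3) (Fin 3) A) : el L (u + v) = el L u * el L v := by
  apply Units.ext
  rw [Units.val_mul, el_val, el_val, el_val]
  have h : (L.w • u) * (L.w • v) = 0 := by
    rw [Matrix.smul_mul, Matrix.mul_smul, smul_smul, L.sq _ _ L.red_w L.red_w, zero_smul]
  have : (1 + L.w • u) * (1 + L.w • v) = 1 + L.w • (u + v) + (L.w • u) * (L.w • v) := by
    rw [smul_add]
    generalize L.w • u = X
    generalize L.w • v = Y
    noncomm_ring
  rw [this, h, add_zero]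

lemma el_conj (u : Matrix (Fin 3) (Fin 3) A) (y : GL (Fin 3) A) :
    y⁻¹ * el L u * y = el L (y⁻¹.val * u * y.val) := by
  apply Units.ext
  rw [Units.val_mul, Units.val_mul, el_val, el_val, mul_add, add_mul, mul_one, Units.inv_mul,
    Matrix.mul_smul, Matrix.smul_mul]

lemma el_surj (g : GL (Fin 3) A) (hg : g ∈ K L) : ∃ u, g = el L u := by
  rw [mem_K] at hg
  have h : ∀ i j, ∃ u, g.val i j - (1 : Matrix _ _ A) i j = L.w * u := fun i j => L.gen _ (hg i j)
  choose u hu using h
  refine ⟨Matrix.of u, ?_⟩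
  apply GeneralLinearGroup.ext
  intro i j
  change g.val i j = (1 + L.w • (Matrix.of u : Matrix _ _ A)) i j
  rw [Matrix.add_apply, Matrix.smul_apply, smul_eq_mul, Matrix.of_apply, ← hu]
  ring

lemma el_eq_of_red (u v : Matrix (Fin 3) (Fin 3) A) (h : ∀ i j, L.red (u i j) = L.red (v i j)) :
    el L u = el L v := by
  apply GeneralLinearGroup.ext
  intro i j
  change (1 + L.w • u) i j = (1 + L.w • v) i j
  rw [Matrix.add_apply, Matrix.smul_apply, Matrix.add_apply, Matrix.smul_apply, smul_eq_mul,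
    smul_eq_mul]
  have h1 : L.red (u i j - v i j) = 0 := by rw [map_sub, h, sub_self]
  have h2 := L.sq _ _ L.red_w h1
  linear_combination h2

lemma K_comm (a b : K L) : a * b = b * a := by
  obtain ⟨u, hu⟩ := el_surj L a.1 a.2
  obtain ⟨v, hv⟩ := el_surj L b.1 b.2
  apply Subtype.ext
  change a.1 * b.1 = b.1 * a.1
  rw [hu, hv, ← el_add, ← el_add, add_comm]

/-! ### The torus -/

/-- Diagonal matrices. -/
def dg : (Fin 3 → (ZMod p)ˣ) →* GL (Fin 3) (ZMod p) :=
  (Units.map (Matrix.diagonalRingHom (Fin 3) (ZMod p)).toMonoidHom).comp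
    (MulEquiv.piUnits (M := fun _ : Fin 3 => ZMod p)).symm.toMonoidHom

lemma dg_apply (t : Fin 3 → (ZMod p)ˣ) (i j : Fin 3) :
    (dg t).val i j = if i = j then (t i : ZMod p) else 0 := by
  change Matrix.diagonal (fun i => (t i : ZMod p)) i j = _
  rw [Matrix.diagonal_apply]

lemma dg_inj : Function.Injective (dg (p := p)) := by
  intro s t h
  funext i
  apply Units.ext
  have h1 : (dg s).val i i = (dg t).val i i := by rw [h]
  simpa [dg_apply] using h1

/-- The subgroup of diagonal matrices. -/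
def T : Subgroup (GL (Fin 3) (ZMod p)) := (dg (p := p)).range

lemma mem_T (g : GL (Fin 3) (ZMod p)) : g ∈ T ↔ ∀ i j, i ≠ j → g.val i j = 0 := by
  constructor
  · rintro ⟨t, rfl⟩ i j hij
    rw [dg_apply, if_neg hij]
  · intro h
    have hg : g.val = Matrix.diagonal (fun i => g.val i i) := by
      ext i j
      rw [Matrix.diagonal_apply]
      split_ifs with hij
      · rw [hij]
      · exact h i j hij
    have hdet : IsUnit g.val.det := (Matrix.isUnit_iff_isUnit_det g.val).1 g.isUnit
    rw [hg, Matrix.det_diagonal] at hdet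
    have hne : ∀ i, g.val i i ≠ 0 := by
      intro i
      exact (Finset.prod_ne_zero_iff.1 hdet.ne_zero) i (Finset.mem_univ _)
    refine ⟨fun i => Units.mk0 _ (hne i), ?_⟩
    apply GeneralLinearGroup.ext
    intro i j
    rw [dg_apply]
    split_ifs with hij
    · rw [hij]; rfl
    · exact (h i j hij).symm

lemma T_card : Nat.card (T (p := p)) = (p - 1) ^ 3 := by
  rw [T, Nat.card_congr (MonoidHom.ofInjective (f := dg (p := p)) dg_inj).toEquiv.symm]
  rw [Nat.card_eq_fintype_card, Fintype.card_pi, Finset.prod_const, Finset.card_univ,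
    Fintype.card_fin, ZMod.card_units_eq_totient, Nat.totient_prime Fact.out]

lemma T_index : ((T (p := p)).index : ℤ) = (p : ℤ) ^ 3 * (p + 1) * (p ^ 2 + p + 1) := by
  have h := Subgroup.card_mul_index (T (p := p))
  rw [T_card, Matrix.card_GL_field, Fin.prod_univ_three] at h
  have hp : 2 ≤ p := (Fact.out : p.Prime).two_le
  obtain ⟨m, rfl⟩ : ∃ m, p = m + 2 := ⟨p - 2, by omega⟩
  have e1 : (m + 2) ^ 3 - (m + 2) ^ ((0 : Fin 3) : ℕ) = (m + 1) * ((m + 2) ^ 2 + (m + 2) + 1) := by
    simp only [Fin.val_zero, pow_zero]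
    apply Nat.sub_eq_of_eq_add
    ring
  have e2 : (m + 2) ^ 3 - (m + 2) ^ ((1 : Fin 3) : ℕ) = (m + 2) * (m + 1) * (m + 3) := by
    simp only [Fin.val_one, pow_one]
    apply Nat.sub_eq_of_eq_add
    ring
  have e3 : (m + 2) ^ 3 - (m + 2) ^ ((2 : Fin 3) : ℕ) = (m + 2) ^ 2 * (m + 1) := by
    simp only [Fin.val_two]
    apply Nat.sub_eq_of_eq_add
    ring
  rw [ZMod.card, e1, e2, e3] at h
  have e4 : m + 2 - 1 = m + 1 := by omega
  rw [e4] at h
  have hpos : 0 < (m + 1) ^ 3 := by positivity
  have h2 : (T (p := m + 2)).index = (m + 2) ^ 3 * ((m + 2) + 1) * ((m + 2) ^ 2 + (m + 2) + 1) := by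
    apply Nat.eq_of_mul_eq_mul_left hpos
    rw [h]
    ring
  rw [h2]
  push_cast
  ring

/-- The inertia subgroup. -/
def I : Subgroup (GL (Fin 3) A) := (T (p := p)).comap (rd L)

lemma mem_I (g : GL (Fin 3) A) : g ∈ I L ↔ ∀ i j, i ≠ j → L.red (g.val i j) = 0 := by
  rw [I, Subgroup.mem_comap, mem_T]
  rfl

lemma I_index : ((I L).index : ℤ) = (p : ℤ) ^ 3 * (p + 1) * (p ^ 2 + p + 1) := by
  rw [I, Subgroup.index_comap_of_surjective _ (rd_surj L), T_index]

lemma K_le_I : K L ≤ I L := by
  intro g hg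
  rw [mem_K] at hg
  rw [mem_I]
  intro i j hij
  have := hg i j
  rwa [Matrix.one_apply_ne hij, sub_zero] at this

/-- The diagonal entries give multiplicative maps. -/
def ent (i : Fin 3) : I L →* A where
  toFun g := g.1.val i i
  map_one' := by
    change (1 : Matrix _ _ A) i i = 1
    rw [Matrix.one_apply_eq]
  map_mul' := by
    intro a b
    change (a.1.val * b.1.val) i i = _
    rw [Matrix.mul_apply]
    refine Finset.sum_eq_single i ?_ ?_
    · intro j _ hj
      exact L.sq _ _ ((mem_I L a.1).1 a.2 i j (Ne.symm hj)) ((mem_I L b.1).1 b.2 j i hj)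
    · intro h
      exact absurd (Finset.mem_univ _) h

lemma ent_apply (i : Fin 3) (g : I L) : ent L i g = g.1.val i i := rfl

/-- The character of the inertia subgroup. -/
noncomputable def chi (θ : MulChar A ℂ) : I L →* ℂ :=
  (θ.toMonoidHom.comp (ent L 1)) * (θ.toMonoidHom.comp (ent L 2)) ^ 2

lemma chi_apply (θ : MulChar A ℂ) (g : I L) :
    chi L θ g = θ (g.1.val 1 1) * θ (g.1.val 2 2) ^ 2 := rfl

lemma chi_el (θ : MulChar A ℂ) (u : Matrix (Fin 3) (Fin 3) A) :
    chi L θ ⟨el L u, K_le_I L (el_mem L u)⟩ = θ (1 + L.w * (u 1 1 + 2 * u 2 2)) := by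
  rw [chi_apply]
  change θ ((1 + L.w • u) 1 1) * θ ((1 + L.w • u) 2 2) ^ 2 = _
  rw [← map_pow, ← map_mul]
  congr 1
  rw [Matrix.add_apply, Matrix.add_apply, Matrix.smul_apply, Matrix.smul_apply, Matrix.one_apply_eq,
    Matrix.one_apply_eq, smul_eq_mul, smul_eq_mul]
  have h := L.sq _ _ L.red_w L.red_w
  linear_combination (u 2 2 ^ 2 + u 1 1 * (2 * u 2 2 + L.w * u 2 2 ^ 2)) * h

/-- The diagonal matrix `diag(0,1,2)`. -/
def DD : Matrix (Fin 3) (Fin 3) A := Matrix.diagonal ![0, 1, 2]

lemma trace_DD (v : Matrix (Fin 3) (Fin 3) A) : (DD * v).trace = v 1 1 + 2 * v 2 2 := by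
  rw [Matrix.trace_fin_three, DD]
  simp [Matrix.diagonal_mul]

theorem stab (θ : MulChar A ℂ) (hθ : θ (1 + L.w) ≠ 1) (hp : 3 ≤ p) (y : GL (Fin 3) A)
    (hy : ∀ k : K L, chi L θ ⟨y⁻¹ * k * y, K_le_I L (by
      simpa using (inferInstance : (K L).Normal).conj_mem k k.2 y⁻¹)⟩ = chi L θ ⟨k, K_le_I L k.2⟩) :
    y ∈ I L := by
  -- the additive character
  have hψ : ∀ s t : A, θ (1 + L.w * (s + t)) = θ (1 + L.w * s) * θ (1 + L.w * t) := by
    intro s t
    rw [← map_mul]
    congr 1
    have h := L.sq _ _ L.red_w L.red_w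
    linear_combination -(s * t) * h
  let C : Matrix (Fin 3) (Fin 3) A := y.val * DD * y⁻¹.val - DD
  have hC : ∀ u : Matrix (Fin 3) (Fin 3) A, θ (1 + L.w * (C * u).trace) = 1 := by
    intro u
    have h1 := hy ⟨el L u, el_mem L u⟩
    have h2 : chi L θ ⟨y⁻¹ * el L u * y, K_le_I L (by
      simpa using (inferInstance : (K L).Normal).conj_mem _ (el_mem L u) y⁻¹)⟩ =
        chi L θ ⟨el L (y⁻¹.val * u * y.val), K_le_I L (el_mem L _)⟩ := by
      congr 1
      apply Subtype.ext
      exact el_conj L u y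
    have h3 := h2.symm.trans h1
    rw [chi_el, chi_el, ← trace_DD, ← trace_DD] at h3
    have h4 : (DD * (y⁻¹.val * u * y.val)).trace = (C * u).trace + (DD * u).trace := by
      have : (DD * (y⁻¹.val * u * y.val)).trace = (y.val * DD * y⁻¹.val * u).trace := by
        rw [← Matrix.mul_assoc, Matrix.trace_mul_comm]
        simp only [Matrix.mul_assoc]
      rw [this, ← Matrix.trace_add, ← Matrix.add_mul]
      simp only [C, sub_add_cancel]
    rw [h4, hψ] at h3
    have h5 : θ (1 + L.w * (DD * u).trace) ≠ 0 := by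
      have : IsUnit (1 + L.w * (DD * u).trace) := by
        apply isUnit_of_red L
        rw [map_add, map_mul, L.red_w, zero_mul, add_zero, map_one]
        exact one_ne_zero
      exact (this.map θ).ne_zero
    exact mul_right_cancel₀ h5 (h3.trans (one_mul _).symm)
  have hred : ∀ i j, L.red (C i j) = 0 := by
    intro i j
    by_contra hne
    obtain ⟨b, hb⟩ := (isUnit_of_red L hne).exists_right_inv
    apply hθ
    have h1 := hC (Matrix.single j i b)
    have h2 : (C * Matrix.single j i b).trace = C i j * b := by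
      rw [Matrix.trace_mul_single]
      rfl
    rw [h2, hb, mul_one] at h1
    exact h1
  rw [mem_I]
  -- commutation modulo the maximal ideal
  have hcom : ∀ i j, L.red ((y.val * (DD : Matrix (Fin 3) (Fin 3) A)) i j - ((DD : Matrix (Fin 3) (Fin 3) A) * y.val) i j) = 0 := by
    intro i j
    have h1 : C * y.val = y.val * DD - DD * y.val := by
      simp only [C, Matrix.sub_mul, Matrix.mul_assoc, Units.inv_mul, Matrix.mul_one]
    have h2 := congrFun (congrFun h1 i) j
    rw [Matrix.sub_apply] at h2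
    rw [← h2, Matrix.mul_apply, map_sum]
    refine Finset.sum_eq_zero fun k _ => ?_
    rw [map_mul, hred, zero_mul]
  have hd : ∀ i j, L.red (y.val i j) * ((![0, 1, 2] : Fin 3 → ZMod p) j - (![0, 1, 2] : Fin 3 → ZMod p) i) = 0 := by
    intro i j
    have h1 := hcom i j
    rw [DD, Matrix.mul_diagonal, Matrix.diagonal_mul, map_sub, map_mul, map_mul] at h1
    have h2 : ∀ l, L.red ((![0, 1, 2] : Fin 3 → A) l) = (![0, 1, 2] : Fin 3 → ZMod p) l := by
      intro l
      fin_cases l
      · exact map_zero L.red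
      · exact map_one L.red
      · exact map_ofNat L.red 2
    rw [h2, h2] at h1
    linear_combination h1
  have h2ne : (2 : ZMod p) ≠ 0 := by
    intro h
    have : (p : ℕ) ∣ 2 := (ZMod.natCast_eq_zero_iff 2 p).1 (by exact_mod_cast h)
    have := Nat.le_of_dvd (by norm_num) this
    omega
  intro i j hij
  have h1 := hd i j
  rcases mul_eq_zero.1 h1 with h | h
  · exact h
  · exfalso
    fin_cases i <;> fin_cases j <;> simp at hij h <;> first | exact h2ne h | skip
    all_goals revert h; norm_num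

end Pool.Agent.K7.H91.OnnRing
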