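import Pool.Agent.K7.H91.OnnRing

set_option autoImplicit false

/-!
# Residue field with two elements
-/

namespace Pool.Agent.K7.H91.OnnTwo

open Matrix OnnRing

/-- Rank one matrices. -/
def E3 (u v w x y z : ZMod 2) : Matrix (Fin 3) (Fin 3) (ZMod 2) :=
  !![u * x, u * y, u * z; v * x, v * y, v * z; w * x, w * y, w * z]

lemma m1 : ∀ a b c d e f g h i : ZMod 2,
    a * e * i - a * f * h - b * d * i + b * f * g + c * d * h - c * e * g = 0 →
    (1 + a) * (1 + e) * (1 + i) - (1 + a) * f * h - b * d * (1 + i) + b * f * g + c * d * h - c * (1 + e) * g = 0 →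
    (!![a, b, c; d, e, f; g, h, i] + !![a, b, c; d, e, f; g, h, i] * !![a, b, c; d, e, f; g, h, i]) *
    (!![a, b, c; d, e, f; g, h, i] + !![a, b, c; d, e, f; g, h, i] * !![a, b, c; d, e, f; g, h, i]) = 0 := by
  decide +kernel

lemma m2 : ∀ a b c d e f g h i : ZMod 2,
    (a * e * i - a * f * h - b * d * i + b * f * g + c * d * h - c * e * g = 0 ∧
    (1 + a) * (1 + e) * (1 + i) - (1 + a) * f * h - b * d * (1 + i) + b * f * g + c * d * h - c * (1 + e) * g = 0 ∧
    !![a, b, c; d, e, f; g, h, i] * !![a, b, c; d, e, f; g, h, i] = !![a, b, c; d, e, f; g, h, i]) →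
    ∃ u v w x y z : ZMod 2, E3 u v w x y z ≠ 0 ∧ E3 u v w x y z * E3 u v w x y z = 0 ∧
      !![a, b, c; d, e, f; g, h, i] * E3 u v w x y z = E3 u v w x y z * !![a, b, c; d, e, f; g, h, i] := by
  decide +kernel

lemma char_two_add (X : Matrix (Fin 3) (Fin 3) (ZMod 2)) : X + X = 0 := by
  ext i j
  rw [Matrix.add_apply]
  exact CharTwo.add_self_eq_zero _

/-- From a nonzero square-zero matrix commuting with `B`. -/
lemma of_sq_zero (B E : Matrix (Fin 3) (Fin 3) (ZMod 2)) (h0 : E ≠ 0) (h1 : E * E = 0)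
    (h2 : B * E = E * B) : ∃ h : GL (Fin 3) (ZMod 2), h ≠ 1 ∧ h.val * B = B * h.val := by
  have h3 : (1 + E) * (1 + E) = 1 := by
    rw [mul_add, add_mul, add_mul, h1, mul_one, mul_one, one_mul, add_zero, add_assoc,
      char_two_add, add_zero]
  refine ⟨⟨1 + E, 1 + E, h3, h3⟩, ?_, ?_⟩
  · intro h
    have := congrArg Units.val h
    change 1 + E = 1 at this
    exact h0 (by simpa using this)
  · change (1 + E) * B = B * (1 + E)
    rw [add_mul, mul_add, one_mul, mul_one, h2]

lemma commuting (B : Matrix (Fin 3) (Fin 3) (ZMod 2)) :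
    ∃ h : GL (Fin 3) (ZMod 2), h ≠ 1 ∧ h.val * B = B * h.val := by
  have hE : E3 1 0 0 0 1 0 ≠ 0 ∧ E3 1 0 0 0 1 0 * E3 1 0 0 0 1 0 = 0 := by decide +kernel
  by_cases hB0 : B = 0
  · exact of_sq_zero B _ hE.1 hE.2 (by rw [hB0, zero_mul, mul_zero])
  by_cases hB1 : B = 1
  · exact of_sq_zero B _ hE.1 hE.2 (by rw [hB1, one_mul, mul_one])
  by_cases hd0 : B.det = 0
  · by_cases hd1 : (1 + B).det = 0
    · have hBm : B = !![B 0 0, B 0 1, B 0 2; B 1 0, B 1 1, B 1 2; B 2 0, B 2 1, B 2 2] :=
        Matrix.eta_fin_three B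
      have e0 := hd0
      rw [Matrix.det_fin_three] at e0
      have e1 := hd1
      rw [Matrix.det_fin_three] at e1
      have e1' : (1 + B 0 0) * (1 + B 1 1) * (1 + B 2 2) - (1 + B 0 0) * B 1 2 * B 2 1 -
          B 0 1 * B 1 0 * (1 + B 2 2) + B 0 1 * B 1 2 * B 2 0 + B 0 2 * B 1 0 * B 2 1 -
          B 0 2 * (1 + B 1 1) * B 2 0 = 0 := by
        simpa [Matrix.add_apply, Matrix.one_apply] using e1
      by_cases hid : B * B = B
      · obtain ⟨u, v, w, x, y, z, h1, h2, h3⟩ := m2 _ _ _ _ _ _ _ _ _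
          ⟨e0, e1', by rw [← hBm]; exact hid⟩
        rw [← hBm] at h3
        exact of_sq_zero B _ h1 h2 h3
      · have h1 := m1 _ _ _ _ _ _ _ _ _ e0 e1'
        rw [← hBm] at h1
        refine of_sq_zero B (B + B * B) ?_ h1 ?_
        · intro h
          apply hid
          have h2 : B + B * B + B = B := by rw [h, zero_add]
          have h3 : B + B * B + B = B * B + (B + B) := by abel
          rw [h3, char_two_add, add_zero] at h2
          exact h2
        · rw [mul_add, add_mul, Matrix.mul_assoc]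
    · refine ⟨GeneralLinearGroup.mk'' (1 + B) (Ne.isUnit hd1), ?_, ?_⟩
      · intro h
        have := congrArg Units.val h
        change 1 + B = 1 at this
        exact hB0 (by simpa using this)
      · change (1 + B) * B = B * (1 + B)
        rw [add_mul, mul_add, one_mul, mul_one]
  · refine ⟨GeneralLinearGroup.mk'' B (Ne.isUnit hd0), ?_, rfl⟩
    intro h
    exact hB1 (congrArg Units.val h)

variable {A : Type} [CommRing A] (L : Len2 2 A)

/-- The sign character of `ZMod 2`. -/
def sgn : ZMod 2 →+ Additive ℂˣ where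
  toFun x := if x = 0 then 0 else Additive.ofMul (-1)
  map_zero' := by simp
  map_add' := by
    have h2 : (Additive.ofMul (-1 : ℂˣ)) + Additive.ofMul (-1 : ℂˣ) = 0 := by
      rw [← ofMul_mul]
      simp
    have : ∀ x y : ZMod 2, (x = 0 ∧ y = 0 ∧ x + y = 0) ∨ (x = 0 ∧ y ≠ 0 ∧ x + y ≠ 0) ∨
      (x ≠ 0 ∧ y = 0 ∧ x + y ≠ 0) ∨ (x ≠ 0 ∧ y ≠ 0 ∧ x + y = 0) := by decide
    intro x y
    rcases this x y with ⟨h, h', h''⟩ | ⟨h, h', h''⟩ | ⟨h, h', h''⟩ | ⟨h, h', h''⟩
    · rw [if_pos h, if_pos h', if_pos h'', add_zero]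
    · rw [if_pos h, if_neg h', if_neg h'', zero_add]
    · rw [if_neg h, if_pos h', if_neg h'', add_zero]
    · rw [if_neg h, if_neg h', if_pos h'', h2]

lemma el_red (u v : Matrix (Fin 3) (Fin 3) A) (h : L.red.mapMatrix u = L.red.mapMatrix v) :
    el L u = el L v := by
  apply el_eq_of_red
  intro i j
  exact congrFun (congrFun h i) j

theorem stab_two (ψ : K L →* ℂˣ) : ∃ g : GL (Fin 3) A, g ∉ K L ∧ ∀ k : K L,
    ψ ⟨g⁻¹ * k * g, by simpa using (inferInstance : (K L).Normal).conj_mem k k.2 g⁻¹⟩ = ψ k := by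
  classical
  have hsurj : Function.Surjective (L.red.mapMatrix (m := Fin 3)) := by
    intro U
    choose f hf using L.surj
    exact ⟨Matrix.of fun i j => f (U i j), by ext i j; exact hf _⟩
  choose lift hlift using hsurj
  let φ : Matrix (Fin 3) (Fin 3) A → ℂˣ := fun u => ψ ⟨el L u, el_mem L u⟩
  have hφadd : ∀ u v, φ (u + v) = φ u * φ v := by
    intro u v
    change ψ _ = ψ _ * ψ _
    rw [← map_mul]
    congr 1
    apply Subtype.ext
    exact el_add L u v
  have hφred : ∀ u v, L.red.mapMatrix u = L.red.mapMatrix v → φ u = φ v := by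
    intro u v h
    change ψ _ = ψ _
    congr 1
    apply Subtype.ext
    exact el_red L u v h
  let Φ : Matrix (Fin 3) (Fin 3) (ZMod 2) →+ Additive ℂˣ := AddMonoidHom.mk'
    (fun U => Additive.ofMul (φ (lift U))) (by
      intro U V
      change Additive.ofMul _ = Additive.ofMul _ + Additive.ofMul _
      rw [← ofMul_mul, ← hφadd]
      congr 1
      apply hφred
      rw [map_add, hlift, hlift, hlift])
  have hΦ : ∀ u, Additive.ofMul (φ u) = Φ (L.red.mapMatrix u) := by
    intro u
    change _ = Additive.ofMul (φ (lift _))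
    congr 1
    apply hφred
    rw [hlift]
  -- the matrix representing the character
  let B : Matrix (Fin 3) (Fin 3) (ZMod 2) := Matrix.of fun j i =>
    if Φ (Matrix.single i j 1) = 0 then 0 else 1
  let Ψ : Matrix (Fin 3) (Fin 3) (ZMod 2) →+ Additive ℂˣ :=
    sgn.comp (AddMonoidHom.mk' (fun U => (B * U).trace) (by
      intro U V
      rw [Matrix.mul_add, Matrix.trace_add]))
  have hΨ : ∀ U, Ψ U = sgn (B * U).trace := fun U => rfl
  have hE : Φ = Ψ := by
    apply Matrix.ext_addMonoidHom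
    intro i j
    refine AddMonoidHom.ext fun x => ?_
    rw [AddMonoidHom.comp_apply, AddMonoidHom.comp_apply, Matrix.singleAddMonoidHom_apply]
    have hx : ∀ x : ZMod 2, x = 0 ∨ x = 1 := by decide
    rcases hx x with rfl | rfl
    · rw [Matrix.single_zero, map_zero, map_zero]
    · rw [hΨ, Matrix.trace_mul_single]
      change _ = sgn (MulOpposite.op (1 : ZMod 2) • (if Φ (Matrix.single i j 1) = 0 then 0 else 1))
      by_cases h : Φ (Matrix.single i j 1) = 0
      · rw [if_pos h, h, smul_zero, map_zero]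
      · rw [if_neg h]
        have h1 : (MulOpposite.op (1 : ZMod 2) • (1 : ZMod 2)) = 1 := by decide
        rw [h1]
        have h2 : sgn 1 = Additive.ofMul (-1) := by
          change (if (1 : ZMod 2) = 0 then (0 : Additive ℂˣ) else Additive.ofMul (-1)) = _
          rw [if_neg (by decide)]
        rw [h2]
        have h3 : Φ (Matrix.single i j 1) + Φ (Matrix.single i j 1) = 0 := by
          rw [← map_add, char_two_add, map_zero]
        have h4 : (Additive.toMul (Φ (Matrix.single i j 1))) * Additive.toMul (Φ (Matrix.single i j 1)) = 1 := h3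
        have h5 : ((Additive.toMul (Φ (Matrix.single i j 1)) : ℂˣ) : ℂ) *
            ((Additive.toMul (Φ (Matrix.single i j 1)) : ℂˣ) : ℂ) = 1 := by
          rw [← Units.val_mul, h4, Units.val_one]
        rcases mul_self_eq_one_iff.1 h5 with h6 | h6
        · exfalso
          apply h
          have : Additive.toMul (Φ (Matrix.single i j 1)) = 1 := Units.ext h6
          exact this
        · have : Additive.toMul (Φ (Matrix.single i j 1)) = -1 := by
            apply Units.ext
            rw [h6, Units.val_neg, Units.val_one]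
          exact this
  obtain ⟨h, h1, hcomm⟩ := commuting B
  obtain ⟨g, hg⟩ := rd_surj L h
  refine ⟨g, ?_, ?_⟩
  · intro hgK
    apply h1
    rw [← hg]
    exact hgK
  · intro k
    obtain ⟨u, hu⟩ := el_surj L k.1 k.2
    have e1 : ψ k = φ u := by
      change ψ _ = ψ _
      congr 1
      exact Subtype.ext hu
    have e2 : ψ ⟨g⁻¹ * k * g, by simpa using (inferInstance : (K L).Normal).conj_mem k k.2 g⁻¹⟩ =
        φ (g⁻¹.val * u * g.val) := by
      change ψ _ = ψ _
      congr 1
      apply Subtype.ext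
      change g⁻¹ * k.1 * g = _
      rw [hu]
      exact el_conj L u g
    rw [e1, e2]
    apply Additive.ofMul.injective
    rw [hΦ, hΦ, hE, hΨ, hΨ, map_mul, map_mul]
    have hg1 : L.red.mapMatrix g.val = h.val := by rw [← hg]; rfl
    have hg2 : L.red.mapMatrix g⁻¹.val = h⁻¹.val := by
      rw [← hg, ← map_inv]; rfl
    rw [hg1, hg2]
    congr 1
    have e3 : B * (h⁻¹.val * L.red.mapMatrix u * h.val) =
        (B * h⁻¹.val * L.red.mapMatrix u) * h.val := by
      simp only [Matrix.mul_assoc]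
    rw [e3, Matrix.trace_mul_comm]
    congr 1
    rw [← Matrix.mul_assoc, ← Matrix.mul_assoc, hcomm, Matrix.mul_assoc B h.val, Units.mul_inv,
      Matrix.mul_one]

include L in
theorem no_irrep [Finite A]
    {V : Type} [AddCommGroup V] [Module ℂ V] [FiniteDimensional ℂ V] [Nontrivial V]
    (ρ : Representation ℂ (GL (Fin 3) A) V)
    (hirr : ∀ W : Submodule ℂ V, (∀ g v, v ∈ W → ρ g v ∈ W) → W = ⊥ ∨ W = ⊤) :
    Module.finrank ℂ V < 168 := by
  have h := OnnUp.finrank_lt (K L) (K_comm L) (stab_two L) ρ hirr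
  rw [K_index L] at h
  norm_num at h
  exact h

end Pool.Agent.K7.H91.OnnTwo
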